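import Pool.Agent.Lib.H63B.B
import Pool.Agent.Lib.H56CV.A
import Pool.Agent.Lib.H40T.R

/-!
# H41CV, file A: components and paths through them, the exchange for `Cv` (MP_33911d, form D7 with cycles of length at
least five)
-/

set_option autoImplicit false
set_option linter.unusedSectionVars false

namespace H41CV

open Finset H98M LD H85TF H47G5

variable {V : Type} [Fintype V] [DecidableEq V]


/-- The component of `u` in `R`. -/
theorem comp_at {E : Finset (Sym2 V)} {R : Finset V} {u : V} (hu : u ∈ R) :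
    ∃ K ⊆ R, u ∈ K ∧ ¬ Disc K E ∧ ∀ a ∈ K, ∀ b ∈ R, s(a, b) ∈ E → b ∈ K := by
  classical
  obtain ⟨K, hKm, hKmax⟩ := (R.powerset.filter fun K => u ∈ K ∧ ¬ Disc K E).exists_max_image
    (fun K => K.card) ⟨{u}, mem_filter.2 ⟨mem_powerset.2 (singleton_subset_iff.2 hu), mem_singleton_self u, by
      rintro ⟨P, Q, hP, hQ, hPQ, hun, -⟩
      have h1 := card_union_of_disjoint hPQ
      rw [hun, card_singleton] at h1
      have := card_pos.2 hP
      have := card_pos.2 hQ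
      omega⟩⟩
  rw [mem_filter, mem_powerset] at hKm
  obtain ⟨hKR, huK, hKc⟩ := hKm
  refine ⟨K, hKR, huK, hKc, fun k hk v hv hkv => ?_⟩
  by_contra hvK
  have h1 := hKmax (insert v K) (mem_filter.2 ⟨mem_powerset.2 (insert_subset hv hKR),
      mem_insert_of_mem huK, H63B.conn_insert hKc hk hkv⟩)
  rw [card_insert_of_notMem hvK] at h1
  omega


/-- A component of `Y - S` has a neighbour in `S` different from `z`. -/
theorem att {E : Finset (Sym2 V)} {Y S K : Finset V} (hT : TCY E Y) (hS : S ⊆ Y) (hKR : K ⊆ Y \ S) {k0 : V}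
    (hk : k0 ∈ K) (hcl : ∀ a ∈ K, ∀ b ∈ Y \ S, s(a, b) ∈ E → b ∈ K) {z c0 : V} (hz : z ∈ S) (hc0 : c0 ∈ S)
    (hne : c0 ≠ z) : ∃ c ∈ S, c ≠ z ∧ ∃ k ∈ K, s(k, c) ∈ E := by
  by_contra hcon
  push Not at hcon
  refine hT.conn' z (hS hz) ⟨K, (Y.erase z) \ K, ⟨k0, hk⟩, ⟨c0, ?_⟩, disjoint_sdiff, ?_, ?_⟩
  · exact mem_sdiff.2 ⟨mem_erase.2 ⟨hne, hS hc0⟩, fun h => (mem_sdiff.1 (hKR h)).2 hc0⟩
  · refine union_sdiff_of_subset fun a ha => mem_erase.2 ⟨fun h => ?_, (mem_sdiff.1 (hKR ha)).1⟩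
    subst h
    exact (mem_sdiff.1 (hKR ha)).2 hz
  · intro a ha b hb hab
    obtain ⟨hb1, hb2⟩ := mem_sdiff.1 hb
    obtain ⟨hb3, hb4⟩ := mem_erase.1 hb1
    by_cases hbS : b ∈ S
    · exact hcon b hbS hb3 a ha hab
    · exact hb2 (hcl a ha b (mem_sdiff.2 ⟨hb4, hbS⟩) hab)


theorem adj {E : Finset (Sym2 V)} (hE : ∀ e ∈ E, ¬ e.IsDiag) {x y : V} (hxy : s(x, y) ∈ E) :
    (SimpleGraph.fromEdgeSet (E : Set (Sym2 V))).Adj x y := by
  rw [SimpleGraph.fromEdgeSet_adj]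
  exact ⟨hxy, fun e => hE _ hxy (by rw [Sym2.mk_isDiag_iff]; exact e)⟩


/-- Adding a vertex at the end of a path. -/
theorem snoc {E : Finset (Sym2 V)} (hE : ∀ e ∈ E, ¬ e.IsDiag) {a c t : V}
    (r : (SimpleGraph.fromEdgeSet (E : Set (Sym2 V))).Walk a c) (hr : r.IsPath) (ht : t ∉ r.support)
    (hct : s(c, t) ∈ E) :
    ∃ q : (SimpleGraph.fromEdgeSet (E : Set (Sym2 V))).Walk a t, q.IsPath ∧
      ∀ v, v ∈ q.support ↔ v ∈ r.support ∨ v = t := by
  refine ⟨r.concat (adj hE hct), hr.concat ht _, fun v => ?_⟩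
  rw [SimpleGraph.Walk.support_concat, List.mem_append, List.mem_singleton]


/-- A path through a connected set. -/
theorem kpath {E : Finset (Sym2 V)} (hE : ∀ e ∈ E, ¬ e.IsDiag) {K : Finset V} (hK : ¬ Disc K E) {a c k1 k2 : V}
    (h1 : k1 ∈ K) (h2 : k2 ∈ K) (ha : a ∉ K) (hc : c ∉ K) (hac : a ≠ c) (hak : s(a, k1) ∈ E)
    (hkc : s(k2, c) ∈ E) :
    ∃ r : (SimpleGraph.fromEdgeSet (E : Set (Sym2 V))).Walk a c, r.IsPath ∧
      (∀ v ∈ r.support, v = a ∨ v = c ∨ v ∈ K) ∧ k1 ∈ r.support := by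
  obtain ⟨p, hp, hpK⟩ := path_of_not_disc hK h1 h2
  obtain ⟨q, hq, hqs⟩ := snoc hE p hp (fun h => hc (hpK c h)) hkc
  refine ⟨SimpleGraph.Walk.cons (adj hE hak) q, ?_, ?_, ?_⟩
  · rw [SimpleGraph.Walk.cons_isPath_iff]
    refine ⟨hq, fun h => ?_⟩
    rcases (hqs a).1 h with h | h
    · exact ha (hpK a h)
    · exact hac h
  · intro v hv
    rw [SimpleGraph.Walk.support_cons, List.mem_cons] at hv
    rcases hv with h | h
    · exact Or.inl h
    · rcases (hqs v).1 h with h | h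
      · exact Or.inr (Or.inr (hpK v h))
      · exact Or.inr (Or.inl h)
  · rw [SimpleGraph.Walk.support_cons, List.mem_cons]
    exact Or.inr ((hqs k1).2 (Or.inl p.start_mem_support))

/-- A path closed by a vertex. -/
theorem close {E : Finset (Sym2 V)} {z a c : V} (r : (SimpleGraph.fromEdgeSet (E : Set (Sym2 V))).Walk a c)
    (hr : r.IsPath) (hac : a ≠ c) (hrz : ∀ x ∈ r.support, x ≠ z) (hza : s(z, a) ∈ E) (hzc : s(z, c) ∈ E)
    {B : Finset V} (hB : ∀ v ∈ B, v = z ∨ v ∈ r.support) : OneCyc E B := by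
  obtain ⟨F, h1, h2, h3, h4, h5⟩ := H56CV.close_path r hr hac hrz hza hzc
  refine ⟨F, h1, ⟨h2, h5⟩, fun v hv => ?_⟩
  rcases hB v hv with h | h
  · rw [h]; exact h3
  · exact h4 v h

/-- A cycle through five vertices. -/
theorem five {E : Finset (Sym2 V)} (hE : ∀ e ∈ E, ¬ e.IsDiag) {B : Finset V} (h : OneCyc E B) (h5 : 5 ≤ B.card) :
    H8F.Cov5 E B := by
  obtain ⟨F, h1, h2, h3⟩ := h
  refine H63B.cov5_of_one hE h1 h2 h3 (h5.trans (card_le_card fun v hv => ?_))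
  rw [mem_filter]
  exact ⟨mem_univ v, h3 v hv⟩

end H41CV
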