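import Pool.Agent.Lib.H41CV.A
import Pool.Agent.Lib.H9TP.C5

/-!
# H41CV, file B: the exchange property of `Cv` in 2-connected graphs (MP_33911d, form D7 with cycles of length at least
five)
-/

set_option autoImplicit false
set_option linter.unusedSectionVars false

namespace H41CV

open Finset H98M LD H85TF H47G5

variable {V : Type} [Fintype V] [DecidableEq V]

/-- A short cycle is a triangle or a 4-cycle. -/
theorem short {E F : Finset (Sym2 V)} (hE : ∀ e ∈ E, ¬ e.IsDiag) (hF : F ⊆ E) (hO : OneF F) {b : V}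
    (hb : dg F b = 2) (h4 : (univ.filter fun v => dg F v = 2).card ≤ 4) :
    (∃ x y, b ≠ x ∧ b ≠ y ∧ x ≠ y ∧ s(b, x) ∈ E ∧ s(b, y) ∈ E ∧ s(x, y) ∈ E ∧
      (∀ v, dg F v = 2 ↔ v = b ∨ v = x ∨ v = y)) ∨
    ∃ x y z, b ≠ x ∧ b ≠ y ∧ b ≠ z ∧ x ≠ y ∧ x ≠ z ∧ y ≠ z ∧ s(b, x) ∈ E ∧ s(b, y) ∈ E ∧ s(x, z) ∈ E ∧
      s(y, z) ∈ E ∧ (∀ v, dg F v = 2 ↔ v = b ∨ v = x ∨ v = y ∨ v = z) := by
  have hne : ∀ {a c : V}, s(a, c) ∈ F → a ≠ c := fun h e => hE _ (hF h) (by simpa using e)
  have hd2 : ∀ {a c : V}, s(a, c) ∈ F → dg F a = 2 := fun h => (hO.1 _).resolve_left (dg_pos h).ne'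
  have sw : ∀ {a c : V}, s(a, c) ∈ F → s(c, a) ∈ F := fun h => by rw [Sym2.eq_swap]; exact h
  obtain ⟨x, y, hxy, hx, hy⟩ := H63B.two_nb hb
  -- the other neighbour of `x`
  have other : ∀ {a c : V}, s(a, c) ∈ F → ∃ w, w ≠ c ∧ s(a, w) ∈ F := by
    intro a c hac
    obtain ⟨p, q, hpq, hp, hq⟩ := H63B.two_nb (hd2 hac)
    by_cases h : p = c
    · exact ⟨q, fun h1 => hpq (h.trans h1.symm), hq⟩
    · exact ⟨p, h, hp⟩
  obtain ⟨z, hzb, hz⟩ := other (sw hx)
  by_cases hzy : z = y
  · subst hzy
    left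
    refine ⟨x, z, hne hx, hne hy, hxy, hF hx, hF hy, hF hz, fun v => ⟨fun hv => ?_, ?_⟩⟩
    · have h1 := hO.2 {b, x, z} ?_ b (by simp) (by omega) v (by omega)
      · simpa using h1
      · intro a ha c hac
        simp only [mem_insert, mem_singleton] at ha ⊢
        rcases ha with rfl | rfl | rfl
        · exact Or.inr (H63B.deg3 hb hx hy hac hxy)
        · rcases H63B.deg3 (hd2 (sw hx)) (sw hx) hz hac hzb.symm with h | h
          · exact Or.inl h
          · exact Or.inr (Or.inr h)
        · rcases H63B.deg3 (hd2 (sw hy)) (sw hy) (sw hz) hac (hne hx) with h | h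
          · exact Or.inl h
          · exact Or.inr (Or.inl h)
    · rintro (rfl | rfl | rfl)
      · exact hb
      · exact hd2 (sw hx)
      · exact hd2 (sw hy)
  · right
    have hxz := hne hz
    have hS : (univ.filter fun v => dg F v = 2) = {b, x, y, z} := by
      symm
      refine eq_of_subset_of_card_le ?_ ?_
      · intro v hv
        simp only [mem_insert, mem_singleton] at hv
        rw [mem_filter]
        refine ⟨mem_univ v, ?_⟩
        rcases hv with rfl | rfl | rfl | rfl
        · exact hb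
        · exact hd2 (sw hx)
        · exact hd2 (sw hy)
        · exact hd2 (sw hz)
      · rw [card_insert_of_notMem, card_insert_of_notMem, card_pair (Ne.symm hzy)]
        · exact h4
        · simp only [mem_insert, mem_singleton, not_or]
          exact ⟨hxy, hxz⟩
        · simp only [mem_insert, mem_singleton, not_or]
          exact ⟨hne hx, hne hy, hzb.symm⟩
    have hmem : ∀ v, dg F v = 2 ↔ v = b ∨ v = x ∨ v = y ∨ v = z := by
      intro v
      have h1 : v ∈ (univ.filter fun v => dg F v = 2) ↔ v ∈ ({b, x, y, z} : Finset V) := by rw [hS]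
      rw [mem_filter] at h1
      simp only [mem_insert, mem_singleton, mem_univ, true_and] at h1
      exact h1
    obtain ⟨w, hwb, hw⟩ := other (sw hy)
    have hwz : w = z := by
      rcases (hmem w).1 (hd2 (sw hw)) with h | h | h | h
      · exact absurd h hwb
      · subst h
        rcases H63B.deg3 (hd2 (sw hx)) (sw hx) hz (sw hw) hzb.symm with h | h
        · exact absurd h (hne hy).symm
        · exact absurd h.symm hzy
      · exact absurd h.symm (hne hw)
      · exact h
    subst hwz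
    exact ⟨x, y, w, hne hx, hne hy, hzb.symm, hxy, hxz, Ne.symm hzy, hF hx, hF hy, hF hz, hF hw, hmem⟩

end H41CV
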