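import Pool.Agent.Lib.H41CV.B

/-!
# H41CV, file C: the exchange property of `Cv` in 2-connected graphs
-/

set_option autoImplicit false
set_option linter.unusedSectionVars false

namespace H41CV

open Finset H98M LD H85TF H47G5

variable {V : Type} [Fintype V] [DecidableEq V]

/-- Two components are disjoint. -/
theorem disj {E : Finset (Sym2 V)} {R K K' : Finset V} (hK' : K' ⊆ R) (hc : ¬ Disc K' E)
    (hcl : ∀ a ∈ K, ∀ b ∈ R, s(a, b) ∈ E → b ∈ K) {w : V} (hw : w ∈ K') (hwK : w ∉ K) :
    ∀ v ∈ K', v ∉ K := by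
  intro v hv hvK
  refine hc ⟨K' ∩ K, K' \ K, ⟨v, mem_inter.2 ⟨hv, hvK⟩⟩, ⟨w, mem_sdiff.2 ⟨hw, hwK⟩⟩, ?_, ?_, ?_⟩
  · rw [disjoint_left]
    intro a ha hb
    exact (mem_sdiff.1 hb).2 (mem_inter.1 ha).2
  · ext a
    rw [mem_union, mem_inter, mem_sdiff]
    tauto
  · intro a ha b hb hab
    exact (mem_sdiff.1 hb).2 (hcl a (mem_inter.1 ha).2 b (hK' (mem_sdiff.1 hb).1) hab)

theorem card5 {b x y z w : V} (hbx : b ≠ x) (hby : b ≠ y) (hbz : b ≠ z) (hbw : b ≠ w) (hxy : x ≠ y)
    (hxz : x ≠ z) (hxw : x ≠ w) (hyz : y ≠ z) (hyw : y ≠ w) (hzw : z ≠ w) :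
    5 ≤ ({b, x, y, z, w} : Finset V).card := by
  rw [card_insert_of_notMem, card_insert_of_notMem, card_insert_of_notMem, card_pair hzw]
  · simp only [mem_insert, mem_singleton, not_or]; exact ⟨hyz, hyw⟩
  · simp only [mem_insert, mem_singleton, not_or]; exact ⟨hxy, hxz, hxw⟩
  · simp only [mem_insert, mem_singleton, not_or]; exact ⟨hbx, hby, hbz, hbw⟩

/-- A 4-cycle `b x z y` which is not in a longer cycle, with a bridge from `b` to `z`: `x` has only the neighbours `b`
and `z`. -/
theorem quad_nb {E : Finset (Sym2 V)} {Y : Finset V} (hT : TCY E Y) {b x y z : V} (hbx : b ≠ x) (hby : b ≠ y)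
    (hbz : b ≠ z) (hxy : x ≠ y) (hxz : x ≠ z) (hyz : y ≠ z) (ebx : s(b, x) ∈ E) (eby : s(b, y) ∈ E)
    (exz : s(x, z) ∈ E) (eyz : s(y, z) ∈ E) {K : Finset V} (hKR : K ⊆ Y \ {b, x, y, z}) (hKc : ¬ Disc K E)
    (hcl : ∀ a ∈ K, ∀ v ∈ Y \ {b, x, y, z}, s(a, v) ∈ E → v ∈ K) {k1 k2 : V} (hk1 : k1 ∈ K) (hk2 : k2 ∈ K)
    (ek1 : s(b, k1) ∈ E) (ek2 : s(k2, z) ∈ E) {B : Finset V} (hB : B ⊆ {b, x, y, z}) (hn : ¬ H8F.Cov5 E B) :
    ∀ w, s(x, w) ∈ E → w = b ∨ w = z := by
  have hE := hT.loop
  have sw : ∀ {a c : V}, s(a, c) ∈ E → s(c, a) ∈ E := fun h => by rw [Sym2.eq_swap]; exact h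
  have hbY : b ∈ Y := hT.sub _ ebx b (by simp)
  have hxY : x ∈ Y := hT.sub _ ebx x (by simp)
  have hyY : y ∈ Y := hT.sub _ eby y (by simp)
  have hzY : z ∈ Y := hT.sub _ exz z (by simp)
  have hSY : ({b, x, y, z} : Finset V) ⊆ Y := by
    intro v hv
    simp only [mem_insert, mem_singleton] at hv
    rcases hv with rfl | rfl | rfl | rfl <;> assumption
  have out : ∀ {K : Finset V}, K ⊆ Y \ {b, x, y, z} → ∀ {v}, v ∈ K → v ≠ b ∧ v ≠ x ∧ v ≠ y ∧ v ≠ z := by
    intro K hK v hv
    have h1 := (mem_sdiff.1 (hK hv)).2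
    simp only [mem_insert, mem_singleton, not_or] at h1
    exact h1
  have fin : ∀ {w : V}, w ≠ b → w ≠ x → w ≠ y → w ≠ z → ¬ OneCyc E {b, x, y, z, w} := by
    intro w h1 h2 h3 h4 h
    refine hn (H8F.cov5_sub ?_ (five hE h (card5 hbx hby hbz h1.symm hxy hxz h2.symm hyz h3.symm h4.symm)))
    intro v hv
    have := hB hv
    simp only [mem_insert, mem_singleton] at this ⊢
    tauto
  intro w hw
  by_contra hcon
  rw [not_or] at hcon
  obtain ⟨hwb, hwz⟩ := hcon
  have hwx : w ≠ x := fun e => hE _ hw (by rw [Sym2.mk_isDiag_iff]; exact e.symm)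
  -- a path through a component from `x` to `b`
  have caseb : ∀ (K : Finset V), K ⊆ Y \ {b, x, y, z} → ¬ Disc K E → ∀ k ∈ K, w ∈ K → s(k, b) ∈ E → False := by
    intro K hKR hKc k hk hwK hkb
    obtain ⟨r, hr, hrs, hwr⟩ := kpath hE hKc hwK hk (fun h => (out hKR h).2.1 rfl) (fun h => (out hKR h).1 rfl)
      hbx.symm hw hkb
    obtain ⟨q, hq, hqs⟩ := snoc hE r hr (t := y) (fun h => by
      rcases hrs y h with h | h | h
      · exact hxy h.symm
      · exact hby h.symm
      · exact (out hKR h).2.2.1 rfl) eby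
    have hwo := out hKR hwK
    refine fin hwo.1 hwo.2.1 hwo.2.2.1 hwo.2.2.2 (close q hq hxy (z := z) (fun v hv e => ?_) (sw exz) (sw eyz) ?_)
    · subst e
      rcases (hqs v).1 hv with h | h
      · rcases hrs v h with h | h | h
        · exact hxz h.symm
        · exact hbz h.symm
        · exact (out hKR h).2.2.2 rfl
      · exact hyz h.symm
    · intro v hv
      simp only [mem_insert, mem_singleton] at hv
      rcases hv with rfl | rfl | rfl | rfl | rfl
      · exact Or.inr ((hqs v).2 (Or.inl r.end_mem_support))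
      · exact Or.inr ((hqs v).2 (Or.inl r.start_mem_support))
      · exact Or.inr ((hqs v).2 (Or.inr rfl))
      · exact Or.inl rfl
      · exact Or.inr ((hqs v).2 (Or.inl hwr))
  by_cases hwy : w = y
  · subst hwy
    obtain ⟨r, hr, hrs, hkr⟩ := kpath hE hKc hk1 hk2 (fun h => (out hKR h).1 rfl) (fun h => (out hKR h).2.2.2 rfl)
      hbz ek1 ek2
    obtain ⟨q, hq, hqs⟩ := snoc hE r hr (t := w) (fun h => by
      rcases hrs w h with h | h | h
      · exact hby h.symm
      · exact hyz h
      · exact (out hKR h).2.2.1 rfl) (sw eyz)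
    have hko := out hKR hk1
    refine fin hko.1 hko.2.1 hko.2.2.1 hko.2.2.2 (close q hq hby (z := x) (fun v hv e => ?_) (sw ebx) hw ?_)
    · subst e
      rcases (hqs v).1 hv with h | h
      · rcases hrs v h with h | h | h
        · exact hbx h.symm
        · exact hxz h
        · exact (out hKR h).2.1 rfl
      · exact hxy h
    · intro v hv
      simp only [mem_insert, mem_singleton] at hv
      rcases hv with rfl | rfl | rfl | rfl | rfl
      · exact Or.inr ((hqs v).2 (Or.inl r.start_mem_support))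
      · exact Or.inl rfl
      · exact Or.inr ((hqs v).2 (Or.inr rfl))
      · exact Or.inr ((hqs v).2 (Or.inl r.end_mem_support))
      · exact Or.inr ((hqs v).2 (Or.inl hkr))
  by_cases hwK : w ∈ K
  · exact caseb K hKR hKc k1 hk1 hwK (sw ek1)
  have hwR : w ∈ Y \ {b, x, y, z} := by
    rw [mem_sdiff]
    refine ⟨hT.sub _ hw w (by simp), ?_⟩
    simp only [mem_insert, mem_singleton, not_or]
    exact ⟨hwb, hwx, hwy, hwz⟩
  obtain ⟨K', hK'R, hwK', hK'c, hcl'⟩ := comp_at (E := E) hwR
  have hdis := disj hK'R hK'c hcl hwK' hwK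
  obtain ⟨c, hcS, hcx, k', hk', hkc⟩ := att hT hSY hK'R hwK' hcl' (z := x) (c0 := b) (by simp) (by simp) hbx
  simp only [mem_insert, mem_singleton] at hcS
  rcases hcS with rfl | rfl | rfl | rfl
  · exact caseb K' hK'R hK'c k' hk' hwK' hkc
  · exact hcx rfl
  · -- `K'` is adjacent to `y`
    obtain ⟨r, hr, hrs, hwr⟩ := kpath hE hK'c hwK' hk' (fun h => (out hK'R h).2.1 rfl)
      (fun h => (out hK'R h).2.2.1 rfl) hxy hw hkc
    obtain ⟨q, hq, hqs⟩ := snoc hE r hr (t := b) (fun h => by
      rcases hrs b h with h | h | h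
      · exact hbx h
      · exact hby h
      · exact (out hK'R h).1 rfl) (sw eby)
    obtain ⟨p, hp, hpK⟩ := path_of_not_disc hKc hk1 hk2
    have hp' : (SimpleGraph.Walk.cons (adj hE ek1) p).IsPath := by
      rw [SimpleGraph.Walk.cons_isPath_iff]
      exact ⟨hp, fun h => (out hKR (hpK b h)).1 rfl⟩
    have hps : ∀ v ∈ (SimpleGraph.Walk.cons (adj hE ek1) p).support, v = b ∨ v ∈ K := by
      intro v hv
      rw [SimpleGraph.Walk.support_cons, List.mem_cons] at hv
      exact hv.imp id (hpK v)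
    have hap := H40T.path_append q (SimpleGraph.Walk.cons (adj hE ek1) p) hq hp' (fun v h1 h2 => by
      rcases hps v h2 with h | h
      · exact h
      · rcases (hqs v).1 h1 with h3 | h3
        · rcases hrs v h3 with h4 | h4 | h4
          · exact absurd h4 (out hKR h).2.1
          · exact absurd h4 (out hKR h).2.2.1
          · exact absurd h (hdis v h4)
        · exact h3)
    refine fin hwb hwx hwy hwz (close _ hap (fun e => (out hKR hk2).2.1 e.symm) (z := z) (fun v hv e => ?_)
      (sw exz) (sw ek2) ?_)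
    · subst e
      rw [SimpleGraph.Walk.mem_support_append_iff] at hv
      rcases hv with hv | hv
      · rcases (hqs v).1 hv with h | h
        · rcases hrs v h with h | h | h
          · exact hxz h.symm
          · exact hyz h.symm
          · exact (out hK'R h).2.2.2 rfl
        · exact hbz h.symm
      · rcases hps v hv with h | h
        · exact hbz h.symm
        · exact (out hKR h).2.2.2 rfl
    · intro v hv
      rw [SimpleGraph.Walk.mem_support_append_iff]
      simp only [mem_insert, mem_singleton] at hv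
      rcases hv with rfl | rfl | rfl | rfl | rfl
      · exact Or.inr (Or.inl ((hqs v).2 (Or.inr rfl)))
      · exact Or.inr (Or.inl ((hqs v).2 (Or.inl r.start_mem_support)))
      · exact Or.inr (Or.inl ((hqs v).2 (Or.inl r.end_mem_support)))
      · exact Or.inl rfl
      · exact Or.inr (Or.inl ((hqs v).2 (Or.inl hwr)))
  · -- `K'` is adjacent to `z`
    obtain ⟨r, hr, hrs, hwr⟩ := kpath hE hK'c hwK' hk' (fun h => (out hK'R h).2.1 rfl)
      (fun h => (out hK'R h).2.2.2 rfl) hxz hw hkc
    obtain ⟨q, hq, hqs⟩ := snoc hE r hr (t := y) (fun h => by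
      rcases hrs y h with h | h | h
      · exact hxy h.symm
      · exact hyz h
      · exact (out hK'R h).2.2.1 rfl) (sw eyz)
    refine fin hwb hwx hwy hwz (close q hq hxy (z := b) (fun v hv e => ?_) ebx eby ?_)
    · subst e
      rcases (hqs v).1 hv with h | h
      · rcases hrs v h with h | h | h
        · exact hbx h
        · exact hbz h
        · exact (out hK'R h).1 rfl
      · exact hby h
    · intro v hv
      simp only [mem_insert, mem_singleton] at hv
      rcases hv with rfl | rfl | rfl | rfl | rfl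
      · exact Or.inl rfl
      · exact Or.inr ((hqs v).2 (Or.inl r.start_mem_support))
      · exact Or.inr ((hqs v).2 (Or.inr rfl))
      · exact Or.inr ((hqs v).2 (Or.inl r.end_mem_support))
      · exact Or.inr ((hqs v).2 (Or.inl hwr))

end H41CV
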