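import Pool.Agent.Lib.H41CV.C

/-!
# H41CV, file D: the exchange property of `Cv` in 2-connected graphs (assembly)
-/

set_option autoImplicit false
set_option linter.unusedSectionVars false

namespace H41CV

open Finset H98M LD H85TF H47G5

variable {V : Type} [Fintype V] [DecidableEq V]

/-- A vertex with two possible neighbours in a graph of degree two. -/
theorem both {E F : Finset (Sym2 V)} (hF : F ⊆ E) {x b z : V} (hx : dg F x = 2)
    (h : ∀ w, s(x, w) ∈ E → w = b ∨ w = z) : s(x, b) ∈ F ∧ s(x, z) ∈ F := by
  obtain ⟨p, q, hpq, hp, hq⟩ := H63B.two_nb hx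
  rcases h p (hF hp) with h1 | h1 <;> rcases h q (hF hq) with h2 | h2
  · exact absurd (h1.trans h2.symm) hpq
  · subst h1; subst h2; exact ⟨hp, hq⟩
  · subst h1; subst h2; exact ⟨hq, hp⟩
  · exact absurd (h1.trans h2.symm) hpq

/-- THE STEP: a short cycle through `A + b` is extended to a neighbour `u` of `b`. -/
theorem step {E : Finset (Sym2 V)} {Y : Finset V} (hT : TCY E Y) {F : Finset (Sym2 V)} (hF : F ⊆ E)
    (hO : OneF F) {A : Finset V} {b u d : V} (hA : ∀ v ∈ insert b A, dg F v = 2)
    (h4 : (univ.filter fun v => dg F v = 2).card ≤ 4) (hn : ¬ H8F.Cov5 E (insert b A)) (hbu : s(b, u) ∈ E)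
    (hu : dg F u = 0) (hd : Cv E (insert d A)) (hd0 : dg F d = 0) : OneCyc E (insert u (insert b A)) := by
  have hE := hT.loop
  have sw : ∀ {a c : V}, s(a, c) ∈ E → s(c, a) ∈ E := fun h => by rw [Sym2.eq_swap]; exact h
  have hb2 : dg F b = 2 := hA b (mem_insert_self _ _)
  have huY : u ∈ Y := hT.sub _ hbu u (by simp)
  have hbY : b ∈ Y := hT.sub _ hbu b (by simp)
  rcases short hE hF hO hb2 h4 with ⟨x, y, hbx, hby, hxy, ebx, eby, exy, hmem⟩ |
    ⟨x, y, z, hbx, hby, hbz, hxy, hxz, hyz, ebx, eby, exz, eyz, hmem⟩
  · -- a triangle
    have hxY : x ∈ Y := hT.sub _ ebx x (by simp)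
    have hyY : y ∈ Y := hT.sub _ eby y (by simp)
    have hSY : ({b, x, y} : Finset V) ⊆ Y := by
      intro v hv
      simp only [mem_insert, mem_singleton] at hv
      rcases hv with rfl | rfl | rfl <;> assumption
    have hAS : ∀ v ∈ insert b A, v = b ∨ v = x ∨ v = y := fun v hv => (hmem v).1 (hA v hv)
    have huS : ¬ (u = b ∨ u = x ∨ u = y) := fun h => by
      have := (hmem u).2 h
      omega
    have huR : u ∈ Y \ {b, x, y} := by
      rw [mem_sdiff]
      refine ⟨huY, ?_⟩
      simp only [mem_insert, mem_singleton]
      exact huS
    obtain ⟨K, hKR, huK, hKc, hcl⟩ := comp_at (E := E) huR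
    have out : ∀ {v}, v ∈ K → v ≠ b ∧ v ≠ x ∧ v ≠ y := by
      intro v hv
      have h1 := (mem_sdiff.1 (hKR hv)).2
      simp only [mem_insert, mem_singleton, not_or] at h1
      exact h1
    obtain ⟨c, hcS, hcb, k, hk, hkc⟩ := att hT hSY hKR huK hcl (z := b) (c0 := x) (by simp) (by simp) hbx.symm
    simp only [mem_insert, mem_singleton] at hcS
    rcases hcS with rfl | rfl | rfl
    · exact absurd rfl hcb
    · obtain ⟨r, hr, hrs, hur⟩ := kpath hE hKc huK hk (fun h => (out h).1 rfl) (fun h => (out h).2.1 rfl) hbx
        hbu hkc
      refine close r hr hbx (z := y) (fun v hv e => ?_) (sw eby) (sw exy) ?_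
      · subst e
        rcases hrs v hv with h | h | h
        · exact hby h.symm
        · exact hxy h.symm
        · exact (out h).2.2 rfl
      · intro v hv
        rcases mem_insert.1 hv with rfl | hv
        · exact Or.inr hur
        · rcases hAS v hv with h | h | h
          · rw [h]; exact Or.inr r.start_mem_support
          · rw [h]; exact Or.inr r.end_mem_support
          · exact Or.inl h
    · obtain ⟨r, hr, hrs, hur⟩ := kpath hE hKc huK hk (fun h => (out h).1 rfl) (fun h => (out h).2.2 rfl) hby
        hbu hkc
      refine close r hr hby (z := x) (fun v hv e => ?_) (sw ebx) exy ?_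
      · subst e
        rcases hrs v hv with h | h | h
        · exact hbx h.symm
        · exact hxy h
        · exact (out h).2.1 rfl
      · intro v hv
        rcases mem_insert.1 hv with rfl | hv
        · exact Or.inr hur
        · rcases hAS v hv with h | h | h
          · rw [h]; exact Or.inr r.start_mem_support
          · exact Or.inl h
          · rw [h]; exact Or.inr r.end_mem_support
  · -- a 4-cycle
    have hxY : x ∈ Y := hT.sub _ ebx x (by simp)
    have hyY : y ∈ Y := hT.sub _ eby y (by simp)
    have hzY : z ∈ Y := hT.sub _ exz z (by simp)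
    have hSY : ({b, x, y, z} : Finset V) ⊆ Y := by
      intro v hv
      simp only [mem_insert, mem_singleton] at hv
      rcases hv with rfl | rfl | rfl | rfl <;> assumption
    have hAS : ∀ v ∈ insert b A, v = b ∨ v = x ∨ v = y ∨ v = z := fun v hv => (hmem v).1 (hA v hv)
    have hAS' : insert b A ⊆ {b, x, y, z} := by
      intro v hv
      simp only [mem_insert, mem_singleton]
      exact hAS v hv
    have huS : ¬ (u = b ∨ u = x ∨ u = y ∨ u = z) := fun h => by
      have := (hmem u).2 h
      omega
    have huR : u ∈ Y \ {b, x, y, z} := by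
      rw [mem_sdiff]
      refine ⟨huY, ?_⟩
      simp only [mem_insert, mem_singleton]
      exact huS
    obtain ⟨K, hKR, huK, hKc, hcl⟩ := comp_at (E := E) huR
    have out : ∀ {v}, v ∈ K → v ≠ b ∧ v ≠ x ∧ v ≠ y ∧ v ≠ z := by
      intro v hv
      have h1 := (mem_sdiff.1 (hKR hv)).2
      simp only [mem_insert, mem_singleton, not_or] at h1
      exact h1
    obtain ⟨c, hcS, hcb, k, hk, hkc⟩ := att hT hSY hKR huK hcl (z := b) (c0 := x) (by simp) (by simp) hbx.symm
    simp only [mem_insert, mem_singleton] at hcS
    rcases hcS with rfl | rfl | rfl | hcz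
    · exact absurd rfl hcb
    · -- next to `b`: `x`
      obtain ⟨r, hr, hrs, hur⟩ := kpath hE hKc huK hk (fun h => (out h).1 rfl) (fun h => (out h).2.1 rfl) hbx
        hbu hkc
      obtain ⟨q, hq, hqs⟩ := snoc hE r hr (t := z) (fun h => by
        rcases hrs z h with h | h | h
        · exact hbz h.symm
        · exact hxz h.symm
        · exact (out h).2.2.2 rfl) exz
      refine close q hq hbz (z := y) (fun v hv e => ?_) (sw eby) eyz ?_
      · subst e
        rcases (hqs v).1 hv with h | h
        · rcases hrs v h with h | h | h
          · exact hby h.symm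
          · exact hxy h.symm
          · exact (out h).2.2.1 rfl
        · exact hyz h
      · intro v hv
        rcases mem_insert.1 hv with rfl | hv
        · exact Or.inr ((hqs v).2 (Or.inl hur))
        · rcases hAS v hv with h | h | h | h
          · rw [h]; exact Or.inr ((hqs _).2 (Or.inl r.start_mem_support))
          · rw [h]; exact Or.inr ((hqs _).2 (Or.inl r.end_mem_support))
          · exact Or.inl h
          · rw [h]; exact Or.inr ((hqs _).2 (Or.inr rfl))
    · -- next to `b`: `y`
      obtain ⟨r, hr, hrs, hur⟩ := kpath hE hKc huK hk (fun h => (out h).1 rfl) (fun h => (out h).2.2.1 rfl) hby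
        hbu hkc
      obtain ⟨q, hq, hqs⟩ := snoc hE r hr (t := z) (fun h => by
        rcases hrs z h with h | h | h
        · exact hbz h.symm
        · exact hyz h.symm
        · exact (out h).2.2.2 rfl) eyz
      refine close q hq hbz (z := x) (fun v hv e => ?_) (sw ebx) exz ?_
      · subst e
        rcases (hqs v).1 hv with h | h
        · rcases hrs v h with h | h | h
          · exact hbx h.symm
          · exact hxy h
          · exact (out h).2.1 rfl
        · exact hxz h
      · intro v hv
        rcases mem_insert.1 hv with rfl | hv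
        · exact Or.inr ((hqs v).2 (Or.inl hur))
        · rcases hAS v hv with h | h | h | h
          · rw [h]; exact Or.inr ((hqs _).2 (Or.inl r.start_mem_support))
          · exact Or.inl h
          · rw [h]; exact Or.inr ((hqs _).2 (Or.inl r.end_mem_support))
          · rw [h]; exact Or.inr ((hqs _).2 (Or.inr rfl))
    · -- opposite to `b`: `z`
      have hzc := hcz.symm
      subst hzc
      obtain ⟨r, hr, hrs, hur⟩ := kpath hE hKc huK hk (fun h => (out h).1 rfl) (fun h => (out h).2.2.2 rfl) hbz
        hbu hkc
      by_cases hyA : y ∈ A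
      · by_cases hxA : x ∈ A
        · exfalso
          have hx := quad_nb hT hbx hby hbz hxy hxz hyz ebx eby exz eyz hKR hKc hcl huK hk hbu hkc hAS' hn
          have hperm : ({b, y, x, z} : Finset V) = {b, x, y, z} := by
            ext v
            simp only [mem_insert, mem_singleton]
            tauto
          have hy := quad_nb hT hby hbx hbz hxy.symm hyz hxz eby ebx eyz exz (by rw [hperm]; exact hKR) hKc
            (by rw [hperm]; exact hcl) huK hk hbu hkc (by rw [hperm]; exact hAS') hn
          rcases hd with ⟨F', h1, h2, h3, h4', h5⟩ | ⟨F', h1, h2, h3⟩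
          · obtain ⟨a1, a2⟩ := both h1 (h5 x (mem_insert_of_mem hxA)) hx
            obtain ⟨a3, a4⟩ := both h1 (h5 y (mem_insert_of_mem hyA)) hy
            refine h4' x b y z hxy hbz a1 ?_ a4 ?_
            · rw [Sym2.eq_swap]; exact a3
            · rw [Sym2.eq_swap]; exact a2
          · obtain ⟨a1, a2⟩ := both h1 (h3 x (mem_insert_of_mem hxA)) hx
            obtain ⟨a3, a4⟩ := both h1 (h3 y (mem_insert_of_mem hyA)) hy
            have sw' : ∀ {a c : V}, s(a, c) ∈ F' → s(c, a) ∈ F' := fun h => by rw [Sym2.eq_swap]; exact h
            have hb' : dg F' b = 2 := (h2.1 b).resolve_left (dg_pos' a1).ne'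
            have hz' : dg F' z = 2 := (h2.1 z).resolve_left (dg_pos' a2).ne'
            have h6 := h2.2 {b, x, y, z} ?_ b (by simp) (by omega) d (by
              have := h3 d (mem_insert_self _ _)
              omega)
            · simp only [mem_insert, mem_singleton] at h6
              have := (hmem d).2 h6
              omega
            · intro a ha v hav
              simp only [mem_insert, mem_singleton] at ha ⊢
              rcases ha with rfl | rfl | rfl | rfl
              · rcases H63B.deg3 hb' (sw' a1) (sw' a3) hav hxy with h | h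
                · exact Or.inr (Or.inl h)
                · exact Or.inr (Or.inr (Or.inl h))
              · rcases hx v (h1 hav) with h | h
                · exact Or.inl h
                · exact Or.inr (Or.inr (Or.inr h))
              · rcases hy v (h1 hav) with h | h
                · exact Or.inl h
                · exact Or.inr (Or.inr (Or.inr h))
              · rcases H63B.deg3 hz' (sw' a2) (sw' a4) hav hxy with h | h
                · exact Or.inr (Or.inl h)
                · exact Or.inr (Or.inr (Or.inl h))
        · refine close r hr hbz (z := y) (fun v hv e => ?_) (sw eby) eyz ?_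
          · subst e
            rcases hrs v hv with h | h | h
            · exact hby h.symm
            · exact hyz h
            · exact (out h).2.2.1 rfl
          · intro v hv
            rcases mem_insert.1 hv with rfl | hv
            · exact Or.inr hur
            · rcases mem_insert.1 hv with rfl | hvA
              · exact Or.inr r.start_mem_support
              · rcases hAS v hv with h | h | h | h
                · rw [h]; exact Or.inr r.start_mem_support
                · exact absurd (h ▸ hvA) hxA
                · exact Or.inl h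
                · rw [h]; exact Or.inr r.end_mem_support
      · refine close r hr hbz (z := x) (fun v hv e => ?_) (sw ebx) exz ?_
        · subst e
          rcases hrs v hv with h | h | h
          · exact hbx h.symm
          · exact hxz h
          · exact (out h).2.1 rfl
        · intro v hv
          rcases mem_insert.1 hv with rfl | hv
          · exact Or.inr hur
          · rcases mem_insert.1 hv with rfl | hvA
            · exact Or.inr r.start_mem_support
            · rcases hAS v hv with h | h | h | h
              · rw [h]; exact Or.inr r.start_mem_support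
              · exact Or.inl h
              · exact absurd (h ▸ hvA) hyA
              · rw [h]; exact Or.inr r.end_mem_support

/-- A vertex of a connected set with another vertex has a neighbour in it. -/
theorem nb_in {E : Finset (Sym2 V)} {U : Finset V} (hU : ¬ Disc U E) {b d : V} (hb : b ∈ U) (hd : d ∈ U)
    (hbd : b ≠ d) : ∃ u ∈ U, u ≠ b ∧ s(b, u) ∈ E := by
  by_contra hcon
  push Not at hcon
  refine hU ⟨{b}, U.erase b, singleton_nonempty b, ⟨d, mem_erase.2 ⟨hbd.symm, hd⟩⟩, ?_, ?_, ?_⟩
  · exact disjoint_singleton_left.2 (notMem_erase b U)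
  · ext v
    rw [mem_union, mem_singleton, mem_erase]
    constructor
    · rintro (rfl | h)
      · exact hb
      · exact h.2
    · intro h
      by_cases hv : v = b
      · exact Or.inl hv
      · exact Or.inr ⟨hv, h⟩
  · intro x hx y hy
    rw [mem_singleton] at hx
    subst hx
    exact hcon y (mem_erase.1 hy).2 (mem_erase.1 hy).1

/-- The exchange if `A + b` is not covered by long cycles. -/
theorem exch_one {E : Finset (Sym2 V)} {Y : Finset V} (hT : TCY E Y) {A U : Finset V} {b d : V}
    (hb : Cv E (insert b A)) (hn : ¬ H8F.Cov5 E (insert b A)) (hd : Cv E (insert d A)) (hbU : b ∈ U)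
    (hdU : d ∈ U) (hU : ¬ Disc U E) (hin : ∀ u ∈ U, u ≠ b → u ≠ d → ¬ Cv E (insert u A)) :
    Cv E (insert d (insert b A)) := by
  obtain ⟨F, hF, hO, hA⟩ := hb.resolve_left hn
  have h4 : (univ.filter fun v => dg F v = 2).card ≤ 4 := by
    by_contra h
    exact hn (H63B.cov5_of_one hT.loop hF hO hA (by omega))
  rcases hO.1 d with hd0 | hd2
  · have hbd : b ≠ d := by
      rintro rfl
      have := hA b (mem_insert_self _ _)
      omega
    obtain ⟨u, huU, hub, hbu⟩ := nb_in hU hbU hdU hbd
    rcases hO.1 u with hu0 | hu2
    · have h5 := step hT hF hO hA h4 hn hbu hu0 hd hd0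
      by_cases hud : u = d
      · rw [← hud]
        exact Or.inr h5
      · exact absurd (Or.inr (oneCyc_sub (insert_subset_insert u (subset_insert b A)) h5)) (hin u huU hub hud)
    · have hud : u ≠ d := by
        rintro rfl
        omega
      refine absurd (Or.inr ⟨F, hF, hO, fun v hv => ?_⟩) (hin u huU hub hud)
      rcases mem_insert.1 hv with rfl | hv
      · exact hu2
      · exact hA v (mem_insert_of_mem hv)
  · refine Or.inr ⟨F, hF, hO, fun v hv => ?_⟩
    rcases mem_insert.1 hv with rfl | hv
    · exact hd2
    · exact hA v hv

/-- THE EXCHANGE PROPERTY of `Cv` in 2-connected graphs. -/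
theorem exch_cv {E : Finset (Sym2 V)} {Y : Finset V} (hT : TCY E Y) (A : Finset V) (b d : V) (U : Finset V)
    (hb : Cv E (insert b A)) (hd : Cv E (insert d A)) (hbU : b ∈ U) (hdU : d ∈ U) (hU : ¬ Disc U E)
    (hin : ∀ u ∈ U, u ≠ b → u ≠ d → ¬ Cv E (insert u A)) : Cv E (insert b (insert d A)) := by
  by_cases h1 : H8F.Cov5 E (insert b A)
  · by_cases h2 : H8F.Cov5 E (insert d A)
    · exact Or.inl (H9TP.exch5_set hT.loop h1 h2 hbU hdU hU fun u hu hub hud h => hin u hu hub hud (Or.inl h))
    · exact exch_one hT hd h2 hb hdU hbU hU fun u hu hud hub => hin u hu hub hud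
  · have h3 := exch_one hT hb h1 hd hbU hdU hU hin
    rwa [Finset.insert_comm] at h3

end H41CV
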