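import Pool.Agent.Lib.H41CV.D
import Pool.Agent.Lib.H36V.Draw8

/-!
# H41CV, file M: the one statement (MP_33911d, form A), without hypotheses
-/

set_option autoImplicit false

namespace H41CV

open SimpleDraw

/-- The exchange property in the form of `H36V.Exch`. -/
theorem exch (V : Type) [Fintype V] [DecidableEq V] : H36V.Exch V :=
  fun _ _ A b d U hT hb hd hbU hdU hU hin => exch_cv hT A b d U hb hd hbU hdU hU hin

/-- FORM A. -/
theorem mainA {n : ℕ} (hn : 4 ≤ n) (D : SimpleDrawing n) (R : SimpleGraph (Fin n)) :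
    ∃ G H F : SimpleGraph (Fin n), D.Plane G ∧ H36V.uncrossed D ≤ G ∧ F ≤ H ∧ H ≤ G ∧ H.Connected ∧
      (∀ v, (H.induce {w | w ≠ v}).Connected) ∧ H.edgeSet.ncard = 2 * n - 3 ∧
      (∀ v, (F.neighborSet v).ncard = 2) ∧
      (∀ (v : Fin n) (c : F.Walk v v), c.IsCycle → min n 5 ≤ c.length) ∧
      ((R ⊔ H36V.uncrossed D ≤ F ∧ ∃ (v : Fin n) (c : F.Walk v v), c.IsHamiltonianCycle) ∨
        ∀ u v, ((G ⊔ R).induce {w | w ≠ u ∧ w ≠ v}).Connected) :=
  H36V.mainA (fun n => exch (Fin n)) hn D R (H36V.uncrossed D) fun _ _ h => h.2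

end H41CV
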